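import Pool.Agent.Y916.Af.Ncon
import Pool.Agent.Y916.Af.Trd
import Pool.Agent.H297R2.ThmJs

/-!
# Near every algebraic number at most one member of a window has `e` algebraic over its periods

Near a point `x = 0` of the base the periods of a family of varieties over `P¹`, defined over `ℚ`, are polynomials in
`log x` and in G-functions `h_1(x), ..., h_r(x)` with rational coefficients (and in limit periods). Let the family be
connected. We consider the members at the algebraic points `x = 1 / (ξ - G u)`, `1 ≤ u ≤ H`, of a window around an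
arbitrary algebraic number `ξ` of degree at most `m`, of height at most `|ξ|^A` and of absolute value at least
`(H + 2)^E`. Let `β_1, ..., β_q` be algebraic numbers which are linearly independent over `ℚ`. Except for at most `q`
members of the window (which depend on `ξ` and `β`) the numbers `exp(β_i)` satisfy no polynomial relation of bounded
degree over number fields of bounded degree (of any height) over the ring generated by the values of the `h_i` at any `k`
different members; if all logarithms of the `α_j = ξ - G u_j` are admitted as well, there are at most `q + 2` exceptional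
members. In particular `e` is algebraic (in bounded degree) over the values at no member but at most one.

Parts of the proof by helper547, helper185, helper356, helper430, helper977, helper475, helper340 (see
`Pool.Agent.Y916.Af.All`), on the libraries of helper118 and helper120; the elimination of the independent numbers uses
`Pool.Agent.Y113.EU.core` (helper113), whose theorem `MP_2cf66e_nt.AtMostOneMember` treats the points `1 / (t - G u)` for
integers `t`; the theorem of Lindemann and Weierstrass: `Pool.Agent.H297R2.exp_algebraicIndependent`.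
-/

set_option autoImplicit false

open PowerSeries

namespace Pool.Agent.Results.MP_2cf66e_nt.AlgebraicPoints

/-- an integer polynomial as a power series with rational coefficients -/
noncomputable def toQ (P : Polynomial ℤ) : PowerSeries ℚ := ((P.map (Int.castRingHom ℚ) : Polynomial ℚ) : PowerSeries ℚ)

/-- the power series `P(u^e)` -/
noncomputable def atPow (e : ℕ) (P : Polynomial ℤ) : PowerSeries ℂ :=
  ((Polynomial.expand ℂ e (P.map (Int.castRingHom ℂ)) : Polynomial ℂ) : PowerSeries ℂ)

/-- the matrices `G_s` over `ℤ[x]` with `T^s y^(s) = G_s y` for all solutions `y` of `T y' = A y` -/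
noncomputable def iter {r : ℕ} (T : Polynomial ℤ) (A : Fin r → Fin r → Polynomial ℤ) : ℕ → Fin r → Fin r → Polynomial ℤ
  | 0 => fun i j => if i = j then 1 else 0
  | s + 1 => fun i j => T * Polynomial.derivative (iter T A s i j) + ∑ l, iter T A s i l * A l j -
      (s : Polynomial ℤ) * (Polynomial.derivative T * iter T A s i j)

/-- The system `T y' = A y` has a fundamental matrix of solutions of the form `u^(-M) ∑_n Φ_n(u) (log u)^n` with
`u^e = x` and convergent power series `Φ_n`: the point `0` is an ordinary point or a regular singularity with rational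
exponents. -/
def QuasiUnipotent {r : ℕ} (T : Polynomial ℤ) (A : Fin r → Fin r → Polynomial ℤ) : Prop :=
  ∃ (e M : ℕ) (K : ℝ) (Φ : Matrix (Fin r) (Fin r) (Polynomial (PowerSeries ℂ))), 1 ≤ e ∧ Φ.det ≠ 0 ∧
    (∀ i j n m, ‖coeff m ((Φ i j).coeff n)‖ ≤ K ^ (m + 1)) ∧
    ∀ i j n, atPow e T * (X * PowerSeries.derivative ℂ ((Φ i j).coeff n) +
        ((n : PowerSeries ℂ) + 1) * (Φ i j).coeff (n + 1) - (M : PowerSeries ℂ) * (Φ i j).coeff n) =
      (e : PowerSeries ℂ) * X ^ e * ∑ l, atPow e (A i l) * (Φ l j).coeff n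

/-- `h_1, ..., h_r` are G-functions with rational coefficients which solve the differential system `T y' = A y`, with
the conditions of Siegel and Galochkin, and the system is regular with rational exponents at `0`. -/
structure GFamily {r : ℕ} (T : Polynomial ℤ) (A : Fin r → Fin r → Polynomial ℤ) (h : Fin r → PowerSeries ℚ) : Prop where
  /-- the denominator is not zero -/
  T_ne : T ≠ 0
  /-- the differential equations -/
  ode : ∀ i, toQ T * PowerSeries.derivative ℚ (h i) = ∑ j, toQ (A i j) * h j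
  /-- the coefficients have geometric growth -/
  size : ∃ C : ℝ, ∀ i m, |((coeff m (h i) : ℚ) : ℝ)| ≤ C ^ (m + 1)
  /-- the common denominators of the coefficients have geometric growth -/
  den : ∃ C : ℝ, ∀ m : ℕ, ∃ d : ℕ, 0 < d ∧ (d : ℝ) ≤ C ^ (m + 1) ∧ ∀ i, ∀ j ≤ m, ∃ a : ℤ, (d : ℚ) * coeff j (h i) = a
  /-- Galochkin's condition: the common denominators of the matrices `G_s / s!` have geometric growth -/
  galochkin : ∃ C : ℝ, ∀ m : ℕ, ∃ d : ℕ, 0 < d ∧ (d : ℝ) ≤ C ^ (m + 1) ∧ ∀ s ≤ m, ∀ i j,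
    ∃ H : Polynomial ℤ, (d : Polynomial ℤ) * iter T A s i j = (s.factorial : Polynomial ℤ) * H
  /-- the local exponents at `0` are rational and the singularity is regular -/
  regular : QuasiUnipotent T A

section
variable {r k : ℕ}

/-- The family is connected: every element of the field `ℚ(x, h_1, ..., h_r)` which is algebraic over `ℚ(x)` is in
`ℚ(x)`; the elements of this field are the quotients `A(h) / B(h)`, where `A`, `B` are polynomials over `ℚ[x]`. -/
def Connected (h : Fin r → PowerSeries ℚ) : Prop := ∀ A B : MvPolynomial (Fin r) (Polynomial ℚ),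
  IsAlgebraic (Polynomial ℚ) (algebraMap (PowerSeries ℚ) (FractionRing (PowerSeries ℚ)) (MvPolynomial.aeval h A) /
    algebraMap (PowerSeries ℚ) (FractionRing (PowerSeries ℚ)) (MvPolynomial.aeval h B)) →
  ∃ a b : Polynomial ℚ, b ≠ 0 ∧ algebraMap (PowerSeries ℚ) (FractionRing (PowerSeries ℚ)) (MvPolynomial.aeval h A) /
    algebraMap (PowerSeries ℚ) (FractionRing (PowerSeries ℚ)) (MvPolynomial.aeval h B) =
      algebraMap (Polynomial ℚ) (FractionRing (PowerSeries ℚ)) a /
        algebraMap (Polynomial ℚ) (FractionRing (PowerSeries ℚ)) b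

/-- the numbers `h_i(1 / α_j)` -/
noncomputable def values (h : Fin r → PowerSeries ℚ) (α : Fin k → ℂ) : Fin k × Fin r → ℂ :=
  fun a => ∑' n : ℕ, ((coeff n (h a.2) : ℚ) : ℂ) * (1 / α a.1) ^ n

/-- the numbers `ℓ_j` and `h_i(1 / α_j)` -/
noncomputable def valuesLog (h : Fin r → PowerSeries ℚ) (α ℓ : Fin k → ℂ) : Fin k × Option (Fin r) → ℂ :=
  fun a => a.2.elim (ℓ a.1) fun i => values h α (a.1, i)

/-- Every polynomial relation of degree `≤ δ` over a number field of degree `≤ d` between the numbers `w` and the numbers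
`x` is an identity in `w`: it holds for all `v` in place of `w`. For one number `w`: `w` is not a root of a nonzero
polynomial whose coefficients are polynomials in `x`. -/
def IndependentOver {ι τ : Type} (w : ι → ℂ) (x : τ → ℂ) (δ d : ℕ) : Prop :=
  ∀ K : IntermediateField ℚ ℂ, FiniteDimensional ℚ K → Module.finrank ℚ K ≤ d →
  ∀ P : MvPolynomial (ι ⊕ τ) K, P.totalDegree ≤ δ → MvPolynomial.aeval (Sum.elim w x) P = 0 →
  ∀ v : ι → ℂ, MvPolynomial.aeval (Sum.elim v x) P = 0

end

theorem iter_eq {r : ℕ} (T : Polynomial ℤ) (A : Fin r → Fin r → Polynomial ℤ) (s : ℕ) :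
    iter T A s = Pool.Agent.Y120.GH.itm T A s := by
  induction s with
  | zero => rfl
  | succ s ih =>
    funext i j
    rw [iter, Pool.Agent.Y120.GH.itm, ih]

theorem qu_eq {r : ℕ} {T : Polynomial ℤ} {A : Fin r → Fin r → Polynomial ℤ} (h : QuasiUnipotent T A) :
    Pool.Agent.Y120.GH.QU0 T A := by
  obtain ⟨e, M, K, Φ, he, hdet, hc, heq⟩ := h
  have he0 : e ≠ 0 := by omega
  refine ⟨e, he0, M, K, Φ, hc, fun i j n => ?_, hdet⟩
  have h1 := heq i j n
  simp only [atPow] at h1
  rw [Pool.Agent.Y120.GH.expand_poly he0]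
  simp only [Pool.Agent.Y120.GH.expand_poly he0]
  exact h1

theorem GFamily.fam {r : ℕ} {T : Polynomial ℤ} {A : Fin r → Fin r → Polynomial ℤ} {h : Fin r → PowerSeries ℚ}
    (hG : GFamily T A h) : Pool.Agent.Y916.Af.GFam T A h := by
  refine ⟨hG.T_ne, hG.ode, hG.size, hG.den, ?_, qu_eq hG.regular⟩
  obtain ⟨C, hC⟩ := hG.galochkin
  refine ⟨C, fun m => ?_⟩
  obtain ⟨d, h1, h2, h3⟩ := hC m
  refine ⟨d, h1, h2, fun s hs i' j' => ?_⟩
  rw [← iter_eq]
  exact h3 s hs i' j'

/-- no constants: transcendence degree 0 -/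
theorem trdeg_none (Ω : Fin 0 → ℂ) : Algebra.trdeg ℚ (IntermediateField.adjoin ℚ (Set.range Ω)) ≤ 0 := by
  have h := Pool.Agent.Y916.Af.trdeg_le_of_closure (X := Set.range Ω) ∅ (by
    rintro _ ⟨i, -⟩
    exact i.elim0)
  simpa using h

/-- the field generated by `2πi` -/
theorem trdeg_two (Ω : Fin 0 → ℂ) : Algebra.trdeg ℚ (IntermediateField.adjoin ℚ
    (insert (2 * Real.pi * Complex.I : ℂ) (Set.range Ω))) ≤ 1 := by
  have h := Pool.Agent.Y916.Af.trdeg_le_of_closure (X := insert (2 * Real.pi * Complex.I : ℂ) (Set.range Ω))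
    {(2 * Real.pi * Complex.I : ℂ)} (by
      rintro x (rfl | ⟨i, -⟩)
      · exact Pool.Agent.Y916.Af.mem_cl_of_alg (isAlgebraic_algebraMap (⟨(2 * Real.pi * Complex.I : ℂ),
          Algebra.subset_adjoin (by simp)⟩ :
          Algebra.adjoin ℚ (((({(2 * Real.pi * Complex.I : ℂ)} : Finset ℂ)) : Set ℂ))))
      · exact i.elim0)
  simpa using h

/-- Let `h = (h_1, ..., h_r)` be a connected family of G-functions. There is `G₀` such that for all `G ≥ G₀` and all `q`,
`k`, `m`, `A`, `δ`, `d` there is `E` such that for all `H`, all complex numbers `ξ` with `|ξ| ≥ (H + 2)^E` which are roots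
of a nonzero integral polynomial of degree at most `m` with coefficients at most `|ξ|^A`, and all algebraic numbers
`β_1, ..., β_q` which are linearly independent over `ℚ`:

(1) there is a set `S` of at most `q` integers such that for all different integers `u_1, ..., u_k` in `[1, H]` outside
`S` the numbers `exp(β_i)` are independent, in degree `δ` and over number fields of degree at most `d`, over the numbers
`h_i(1 / α_j)`, `α_j = ξ - G u_j`;

(2) there is a set `S` of at most `q + 2` integers such that for all different integers `u_1, ..., u_k` in `[1, H]`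
outside `S` and all logarithms `ℓ_j` of the `α_j` the numbers `exp(β_i)` are independent in the same sense over the
`ℓ_j` and the `h_i(1 / α_j)`. -/
theorem result {r : ℕ} (T₀ : Polynomial ℤ) (A₀ : Fin r → Fin r → Polynomial ℤ) (h : Fin r → PowerSeries ℚ)
    (hG : GFamily T₀ A₀ h) (hc : Connected h) :
    ∃ G₀ : ℕ, ∀ G : ℕ, G₀ ≤ G → ∀ q k m A δ d : ℕ, ∃ E : ℕ, ∀ (H : ℕ) (ξ : ℂ), ((H : ℝ) + 2) ^ E ≤ ‖ξ‖ →
      (∃ p : Polynomial ℤ, p ≠ 0 ∧ p.natDegree ≤ m ∧ (∀ j, |(p.coeff j : ℝ)| ≤ ‖ξ‖ ^ A) ∧
        Polynomial.aeval ξ p = 0) →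
      ∀ β : Fin q → ℂ, (∀ i, IsAlgebraic ℚ (β i)) → LinearIndependent ℚ β →
      (∃ S : Finset ℕ, S.card ≤ q ∧ ∀ u : Fin k → ℕ, Function.Injective u → (∀ j, 1 ≤ u j ∧ u j ≤ H ∧ u j ∉ S) →
        IndependentOver (fun i => Complex.exp (β i)) (values h fun j => ξ - ((G * u j : ℕ) : ℂ)) δ d) ∧
      ∃ S : Finset ℕ, S.card ≤ q + 2 ∧ ∀ u : Fin k → ℕ, Function.Injective u → (∀ j, 1 ≤ u j ∧ u j ≤ H ∧ u j ∉ S) →
        ∀ ℓ : Fin k → ℂ, (∀ j, Complex.exp (ℓ j) = ξ - ((G * u j : ℕ) : ℂ)) →
        IndependentOver (fun i => Complex.exp (β i)) (valuesLog h (fun j => ξ - ((G * u j : ℕ) : ℂ)) ℓ) δ d := by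
  obtain ⟨G₁, hG₁, hW1⟩ := Pool.Agent.Y916.Af.winCN hG.fam hc
  obtain ⟨G₂, hG₂, hW2⟩ := Pool.Agent.Y916.Af.winC Pool.Agent.Y916.Af.nr Pool.Agent.Y916.Af.t_br2 Pool.Agent.Y916.Af.conn
    hG.fam hc
  obtain ⟨B, hB1, hB⟩ := Pool.Agent.Y916.Af.val_memC hG.size
  refine ⟨G₁ + G₂, fun G hGG q k m A δ d => ?_⟩
  obtain ⟨E₁, hE₁⟩ := hW1 G (by omega) 0 (fun i => i.elim0) q k m d δ A
  obtain ⟨E₂, hE₂⟩ := hW2 G (by omega) 0 (fun i => i.elim0) q k m d δ A
  refine ⟨E₁ + E₂ + (G + B + 1), fun H ξ hξ hp β hβ hβ2 => ?_⟩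
  have hH0 : (0 : ℝ) ≤ (H : ℝ) := Nat.cast_nonneg H
  have hH1 : (1 : ℝ) ≤ (H : ℝ) + 2 := by linarith
  have hH2 : (2 : ℝ) ≤ (H : ℝ) + 2 := by linarith
  have h2n : ∀ n : ℕ, (n : ℝ) + 1 ≤ ((H : ℝ) + 2) ^ n := fun n => by
    refine le_trans ?_ (pow_le_pow_left₀ (by norm_num) hH2 n)
    have : n + 1 ≤ 2 ^ n := Nat.lt_two_pow_self
    exact_mod_cast this
  have hbig : (G : ℝ) * H + B < ‖ξ‖ := by
    refine lt_of_lt_of_le ?_ ((pow_le_pow_right₀ hH1 (by omega : G + B + 1 ≤ E₁ + E₂ + (G + B + 1))).trans hξ)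
    rw [pow_add, pow_add, pow_one]
    have h1 := h2n G
    have h2 := h2n B
    have hG0 : (0 : ℝ) ≤ G := Nat.cast_nonneg G
    have hB0 : (0 : ℝ) ≤ B := Nat.cast_nonneg B
    have h3 : ((G : ℝ) + 1) * (B + 1) * (H + 2) ≤ ((H : ℝ) + 2) ^ G * ((H : ℝ) + 2) ^ B * (H + 2) := by
      refine mul_le_mul_of_nonneg_right (mul_le_mul h1 h2 (by linarith) (by positivity)) (by linarith)
    nlinarith [mul_nonneg hG0 hH0, mul_nonneg hB0 hH0, mul_nonneg hG0 hB0, mul_nonneg (mul_nonneg hG0 hB0) hH0]
  have hw : AlgebraicIndependent ℚ fun i => Complex.exp (β i) :=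
    (Pool.Agent.H297R2.exp_algebraicIndependent β hβ hβ2).restrictScalars
      (algebraMap ℚ (algebraicClosure ℚ ℂ)).injective
  have hx : ∀ n : ℕ, IsAlgebraic ℚ (1 / (ξ - (n : ℂ))) := by
    intro n
    obtain ⟨p, hp0, -, -, hp⟩ := hp
    have h7 : IsAlgebraic ℚ ξ := by
      refine ⟨p.map (Int.castRingHom ℚ), ?_, ?_⟩
      · exact (Polynomial.map_ne_zero_iff (RingHom.injective_int _)).2 hp0
      · rw [← hp, Polynomial.aeval_def, Polynomial.aeval_def, Polynomial.eval₂_map]
        congr 1
    rw [one_div]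
    exact (h7.sub (isAlgebraic_natCast _)).inv
  have hα0 : ∀ u : ℕ, u ≤ H → (B : ℝ) < ‖ξ - ((G * u : ℕ) : ℂ)‖ := by
    intro u hu
    have h5 := norm_sub_norm_le ξ ((G * u : ℕ) : ℂ)
    rw [Complex.norm_natCast] at h5
    have h6 : ((G * u : ℕ) : ℝ) ≤ G * H := by
      push_cast
      exact mul_le_mul_of_nonneg_left (by exact_mod_cast hu) (Nat.cast_nonneg G)
    linarith
  constructor
  · obtain ⟨S, hS, hS2⟩ := hE₁ H ξ ((pow_le_pow_right₀ hH1 (by omega)).trans hξ) hp fun i => Complex.exp (β i)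
    refine ⟨S, ?_, fun u hu huS K hK hKd P hPd hP0 v => ?_⟩
    · have h1 : (S.card : Cardinal) ≤ ((q : ℕ) : Cardinal) := by
        refine hS.trans ((add_le_add (trdeg_none _) le_rfl).trans (le_of_eq ?_))
        rw [zero_add]
      exact_mod_cast h1
    · obtain ⟨hmem, h3⟩ := hS2 u hu huS
      refine Pool.Agent.Y916.Af.indepN (x := fun j => 1 / (ξ - ((G * u j : ℕ) : ℂ))) (fun j => hx _) hmem _ hw K hK P
        (fun y hy => ?_) v
      have h4 := h3 K hK hKd (MvPolynomial.rename (Sum.map Sum.inr id) P)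
        ((MvPolynomial.totalDegree_rename_le _ _).trans hPd) (by
          rw [MvPolynomial.aeval_rename, ← hP0]
          congr 2
          funext a
          rcases a with a | a <;> rfl) y hy
      rw [MvPolynomial.aeval_rename] at h4
      rw [← h4]
      congr 2
      funext a
      rcases a with a | a <;> rfl
  · obtain ⟨S, hS, hS2⟩ := hE₂ H ξ ((pow_le_pow_right₀ hH1 (by omega)).trans hξ) hp fun i => Complex.exp (β i)
    refine ⟨S, ?_, fun u hu huS ℓ hℓ K hK hKd P hPd hP0 v => ?_⟩
    · have h1 : (S.card : Cardinal) ≤ ((q + 2 : ℕ) : Cardinal) := by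
        refine hS.trans ((add_le_add (add_le_add (trdeg_two _) le_rfl) le_rfl).trans (le_of_eq ?_))
        push_cast
        rw [add_comm 1 (q : Cardinal), add_assoc]
        norm_num
      exact_mod_cast h1
    · refine Pool.Agent.Y916.Af.indepE (x := fun j => 1 / (ξ - ((G * u j : ℕ) : ℂ))) (fun j => hx _)
        (z := valuesLog h (fun j => ξ - ((G * u j : ℕ) : ℂ)) ℓ) (fun j => hB _ (hα0 _ (huS j).2.1)) _ hw K hK P
        (fun y hy => ?_) v
      have h4 := hS2 u hu huS ℓ hℓ K hK hKd (MvPolynomial.rename (Sum.map Sum.inr id) P)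
        ((MvPolynomial.totalDegree_rename_le _ _).trans hPd) (by
          rw [MvPolynomial.aeval_rename, ← hP0]
          congr 2
          funext a
          rcases a with a | ⟨a, _ | b⟩ <;> rfl) y hy
      rw [MvPolynomial.aeval_rename] at h4
      rw [← h4]
      congr 2
      funext a
      rcases a with a | a <;> rfl

end Pool.Agent.Results.MP_2cf66e_nt.AlgebraicPoints
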