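import Pool.Agent.Y113.EU.Win
import Pool.Agent.H297R2.ThmJs

/-!
# In every window at most one member of a family has `e` algebraic over its periods

Near a point `x = 0` of the base the periods of a family of varieties over `ℚ(x)` are polynomials in `log x`, in
G-functions `h_1(x), ..., h_r(x)` with rational coefficients and in constants `Ω` (the periods of the limit or of the
fibre at `0`). Let the family be connected, and consider the members at `x = 1 / (t - G u)`, `1 ≤ u ≤ H`, of a window,
where `t ≥ (H + 2)^E`.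

Let `β_1, ..., β_q` be algebraic numbers which are linearly independent over `ℚ`. If `Ω` is algebraic (or empty), or if
the numbers `exp β_i` are algebraically independent over `ℚ(Ω)`, then, after removing at most `trdeg ℚ(Ω) + q` members of
the window, the numbers `exp β_i` satisfy no algebraic relation at all, of degree at most `d`, over number fields of
degree at most `D`, over the periods of any `k` of the remaining members taken together (if `log x` is admitted the bound
is `trdeg ℚ(Ω) + q + 1`).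

In particular (`q = 1`, `β = 1`, `Ω` empty) there is at most one member of the window such that `e` is algebraic over the
values `h_i`; the other members do not help to express `e`, even if they are used together. The bound for the number of
exceptions does not depend on the degrees `D`, `d`, on `k`, `H`, `t`, and there is no condition on heights.
-/

set_option autoImplicit false

open PowerSeries

namespace Pool.Agent.Results.MP_2cf66e_nt.AtMostOneMember

/-- an integer polynomial as a power series with rational coefficients -/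
noncomputable def toQ (P : Polynomial ℤ) : PowerSeries ℚ := ((P.map (Int.castRingHom ℚ) : Polynomial ℚ) : PowerSeries ℚ)

/-- the power series `P(u^e)` -/
noncomputable def atPow (e : ℕ) (P : Polynomial ℤ) : PowerSeries ℂ :=
  ((Polynomial.expand ℂ e (P.map (Int.castRingHom ℂ)) : Polynomial ℂ) : PowerSeries ℂ)

/-- the matrices `G_s` over `ℤ[x]` with `T^s y^(s) = G_s y` for all solutions `y` of `T y' = A y` -/
noncomputable def iter {r : ℕ} (T : Polynomial ℤ) (A : Fin r → Fin r → Polynomial ℤ) : ℕ → Fin r → Fin r → Polynomial ℤ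
  | 0 => fun i j => if i = j then 1 else 0
  | s + 1 => fun i j => T * Polynomial.derivative (iter T A s i j) + ∑ l, iter T A s i l * A l j -
      (s : Polynomial ℤ) * (Polynomial.derivative T * iter T A s i j)

/-- The system `T y' = A y` has a fundamental matrix of solutions of the form `u^(-M) ∑_n Φ_n(u) (log u)^n` with
`u^e = x` and convergent power series `Φ_n`: the point `0` is an ordinary point or a regular singularity with rational
exponents. -/
def QuasiUnipotent {r : ℕ} (T : Polynomial ℤ) (A : Fin r → Fin r → Polynomial ℤ) : Prop :=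
  ∃ (e M : ℕ) (K : ℝ) (Φ : Matrix (Fin r) (Fin r) (Polynomial (PowerSeries ℂ))), 1 ≤ e ∧ Φ.det ≠ 0 ∧
    (∀ i j n m, ‖coeff m ((Φ i j).coeff n)‖ ≤ K ^ (m + 1)) ∧
    ∀ i j n, atPow e T * (X * PowerSeries.derivative ℂ ((Φ i j).coeff n) +
        ((n : PowerSeries ℂ) + 1) * (Φ i j).coeff (n + 1) - (M : PowerSeries ℂ) * (Φ i j).coeff n) =
      (e : PowerSeries ℂ) * X ^ e * ∑ l, atPow e (A i l) * (Φ l j).coeff n

/-- `h_1, ..., h_r` are G-functions with rational coefficients which solve the differential system `T y' = A y`, with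
the conditions of Siegel and Galochkin, and the system is regular with rational exponents at `0`. -/
structure GFamily {r : ℕ} (T : Polynomial ℤ) (A : Fin r → Fin r → Polynomial ℤ) (h : Fin r → PowerSeries ℚ) : Prop where
  /-- the denominator is not zero -/
  T_ne : T ≠ 0
  /-- the differential equations -/
  ode : ∀ i, toQ T * PowerSeries.derivative ℚ (h i) = ∑ j, toQ (A i j) * h j
  /-- the coefficients have geometric growth -/
  size : ∃ C : ℝ, ∀ i m, |((coeff m (h i) : ℚ) : ℝ)| ≤ C ^ (m + 1)
  /-- the common denominators of the coefficients have geometric growth -/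
  den : ∃ C : ℝ, ∀ m : ℕ, ∃ d : ℕ, 0 < d ∧ (d : ℝ) ≤ C ^ (m + 1) ∧ ∀ i, ∀ j ≤ m, ∃ a : ℤ, (d : ℚ) * coeff j (h i) = a
  /-- Galochkin's condition: the common denominators of the matrices `G_s / s!` have geometric growth -/
  galochkin : ∃ C : ℝ, ∀ m : ℕ, ∃ d : ℕ, 0 < d ∧ (d : ℝ) ≤ C ^ (m + 1) ∧ ∀ s ≤ m, ∀ i j,
    ∃ H : Polynomial ℤ, (d : Polynomial ℤ) * iter T A s i j = (s.factorial : Polynomial ℤ) * H
  /-- the local exponents at `0` are rational and the singularity is regular -/
  regular : QuasiUnipotent T A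

section
variable {r k : ℕ}

/-- The family is connected: every element of the field `ℚ(x, h_1, ..., h_r)` which is algebraic over `ℚ(x)` is in
`ℚ(x)`; the elements of this field are the quotients `A(h) / B(h)`, where `A`, `B` are polynomials over `ℚ[x]`. -/
def Connected (h : Fin r → PowerSeries ℚ) : Prop := ∀ A B : MvPolynomial (Fin r) (Polynomial ℚ),
  IsAlgebraic (Polynomial ℚ) (algebraMap (PowerSeries ℚ) (FractionRing (PowerSeries ℚ)) (MvPolynomial.aeval h A) /
    algebraMap (PowerSeries ℚ) (FractionRing (PowerSeries ℚ)) (MvPolynomial.aeval h B)) →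
  ∃ a b : Polynomial ℚ, b ≠ 0 ∧ algebraMap (PowerSeries ℚ) (FractionRing (PowerSeries ℚ)) (MvPolynomial.aeval h A) /
    algebraMap (PowerSeries ℚ) (FractionRing (PowerSeries ℚ)) (MvPolynomial.aeval h B) =
      algebraMap (Polynomial ℚ) (FractionRing (PowerSeries ℚ)) a /
        algebraMap (Polynomial ℚ) (FractionRing (PowerSeries ℚ)) b

/-- the values `h_i(1 / t_j)` -/
noncomputable def values (h : Fin r → PowerSeries ℚ) (t : Fin k → ℕ) : Fin k × Fin r → ℂ :=
  fun a => ((∑' m : ℕ, ((coeff m (h a.2) : ℚ) : ℝ) * (1 / (t a.1 : ℝ)) ^ m : ℝ) : ℂ)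

/-- the values `h_i(1 / t_j)` together with the `log t_j` -/
noncomputable def valuesLog (h : Fin r → PowerSeries ℚ) (t : Fin k → ℕ) : Fin k × Option (Fin r) → ℂ :=
  fun a => a.2.elim ((Real.log (t a.1) : ℝ) : ℂ) fun i => values h t (a.1, i)

/-- The numbers `w` are independent over the numbers `x` in bounded degree: every polynomial relation `P(w, x) = 0` of
degree `≤ d` over a number field of degree `≤ D` is an identity in `w`. -/
def IndependentOver {ι τ : Type} (w : ι → ℂ) (x : τ → ℂ) (D d : ℕ) : Prop :=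
  ∀ K : IntermediateField ℚ ℂ, FiniteDimensional ℚ K → Module.finrank ℚ K ≤ D →
  ∀ P : MvPolynomial (ι ⊕ τ) K, P.totalDegree ≤ d → MvPolynomial.aeval (Sum.elim w x) P = 0 →
  ∀ v : ι → ℂ, MvPolynomial.aeval (Sum.elim v x) P = 0

/-- the property `Φ` holds for all `k`-tuples of different elements `t - G u_j` of the window, `1 ≤ u_j ≤ H`, which do not
meet `S` -/
def InWindow (G H t : ℕ) (S : Finset ℕ) (Φ : (Fin k → ℕ) → Prop) : Prop :=
  ∀ u : Fin k → ℕ, Function.Injective u → (∀ j, 1 ≤ u j ∧ u j ≤ H ∧ u j ∉ S) → Φ fun j => t - G * u j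

/-- the transcendence degree of the field generated by the constants -/
noncomputable def constDeg {p : ℕ} (Ω : Fin p → ℂ) : Cardinal :=
  Algebra.trdeg ℚ (IntermediateField.adjoin ℚ (Set.range Ω))

end

theorem iter_eq {r : ℕ} (T : Polynomial ℤ) (A : Fin r → Fin r → Polynomial ℤ) (s : ℕ) :
    iter T A s = Pool.Agent.Y120.GH.itm T A s := by
  induction s with
  | zero => rfl
  | succ s ih =>
    funext i j
    rw [iter, Pool.Agent.Y120.GH.itm, ih]

theorem qu_eq {r : ℕ} {T : Polynomial ℤ} {A : Fin r → Fin r → Polynomial ℤ} (h : QuasiUnipotent T A) :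
    Pool.Agent.Y120.GH.QU0 T A := by
  obtain ⟨e, M, K, Φ, he, hdet, hc, heq⟩ := h
  have he0 : e ≠ 0 := by omega
  refine ⟨e, he0, M, K, Φ, hc, fun i j n => ?_, hdet⟩
  have h1 := heq i j n
  simp only [atPow] at h1
  rw [Pool.Agent.Y120.GH.expand_poly he0]
  simp only [Pool.Agent.Y120.GH.expand_poly he0]
  exact h1

theorem gal_eq {r : ℕ} {T : Polynomial ℤ} {A : Fin r → Fin r → Polynomial ℤ} {h : Fin r → PowerSeries ℚ}
    (hG : GFamily T A h) : ∃ C : ℝ, ∀ m, ∃ d : ℕ, 0 < d ∧ (d : ℝ) ≤ C ^ (m + 1) ∧ ∀ s ≤ m, ∀ i j, ∃ H : Polynomial ℤ,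
      (d : Polynomial ℤ) * Pool.Agent.Y120.GH.itm T A s i j = (s.factorial : Polynomial ℤ) * H := by
  obtain ⟨C, hC⟩ := hG.galochkin
  refine ⟨C, fun m => ?_⟩
  obtain ⟨d, h1, h2, h3⟩ := hC m
  refine ⟨d, h1, h2, fun s hs i' j' => ?_⟩
  rw [← iter_eq]
  exact h3 s hs i' j'

/-- the theorem of Lindemann and Weierstrass over the field generated by algebraic constants -/
theorem indep_of {p q : ℕ} (Ω : Fin p → ℂ) (β : Fin q → ℂ) (hβ : ∀ i, IsAlgebraic ℚ (β i)) (hβ2 : LinearIndependent ℚ β)
    (h : (∀ i, IsAlgebraic ℚ (Ω i)) ∨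
      AlgebraicIndependent (IntermediateField.adjoin ℚ (Set.range Ω)) fun i => Complex.exp (β i)) :
    AlgebraicIndependent (IntermediateField.adjoin ℚ (Set.range Ω)) fun i => Complex.exp (β i) := by
  rcases h with h | h
  · have h1 : AlgebraicIndependent ℚ fun i => Complex.exp (β i) :=
      (Pool.Agent.H297R2.exp_algebraicIndependent β hβ hβ2).restrictScalars
        (algebraMap ℚ (algebraicClosure ℚ ℂ)).injective
    have : Algebra.IsAlgebraic ℚ (IntermediateField.adjoin ℚ (Set.range Ω)) :=
      IntermediateField.isAlgebraic_adjoin (by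
        rintro _ ⟨i, rfl⟩
        exact (h i).isIntegral)
    exact h1.extendScalars _
  · exact h

/-- **Main result.** -/
theorem result {r : ℕ} (T : Polynomial ℤ) (A : Fin r → Fin r → Polynomial ℤ) (h : Fin r → PowerSeries ℚ)
    (hG : GFamily T A h) (hc : Connected h) :
    ∃ G0 : ℕ, ∀ G : ℕ, G0 ≤ G → ∀ (p : ℕ) (Ω : Fin p → ℂ) (q k D d : ℕ), ∃ E : ℕ, ∀ H t : ℕ, (H + 2) ^ E ≤ t →
      ∀ β : Fin q → ℂ, (∀ i, IsAlgebraic ℚ (β i)) → LinearIndependent ℚ β →
      ((∀ i, IsAlgebraic ℚ (Ω i)) ∨
        AlgebraicIndependent (IntermediateField.adjoin ℚ (Set.range Ω)) fun i => Complex.exp (β i)) →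
      (∃ S : Finset ℕ, (S.card : Cardinal) ≤ constDeg Ω + q ∧ InWindow G H t S fun s : Fin k → ℕ =>
        IndependentOver (fun i => Complex.exp (β i)) (Sum.elim Ω (values h s)) D d) ∧
      ∃ S : Finset ℕ, (S.card : Cardinal) ≤ constDeg Ω + q + 1 ∧ InWindow G H t S fun s : Fin k → ℕ =>
        IndependentOver (fun i => Complex.exp (β i)) (Sum.elim Ω (valuesLog h s)) D d := by
  obtain ⟨G0, h0⟩ := Pool.Agent.Y113.EU.main hG.T_ne hG.ode hG.size hG.den (gal_eq hG) (qu_eq hG.regular) hc
  refine ⟨G0, fun G hGG p Ω q k D d => ?_⟩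
  obtain ⟨E, hE⟩ := h0 G hGG p Ω q k D d
  refine ⟨E, fun H t ht β hβ hβ2 hΩ => ?_⟩
  obtain ⟨⟨S, hS, hS2⟩, S', hS', hS2'⟩ := hE H t ht _ (indep_of Ω β hβ hβ2 hΩ)
  exact ⟨⟨S, hS, fun u hu huS => hS2 u hu huS⟩, S', hS', fun u hu huS => hS2' u hu huS⟩

end Pool.Agent.Results.MP_2cf66e_nt.AtMostOneMember
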