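import Pool.Agent.Y627.EP.Ind

/-!
# `e^x` is almost never algebraic over fields of periods

The question whether `e` is a period is a question about one value of the exponential function. The periods which depend
on a parameter `z` (integrals of algebraic functions of `z`: algebraic functions, logarithms, polylogarithms, elliptic
and abelian integrals, hypergeometric functions, …) are analytic functions of moderate growth in sectors at infinity
(their differential equations are regular singular). We show that for every finite system `f_1, …, f_k` of analytic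
functions of moderate growth in a sector of opening larger than `π`, algebraically independent over `ℂ(z)`, almost no
algebraic point `x` is exceptional for the problem relative to `f_1(x), …, f_k(x)` and to any finite number of constants
`ξ_1, …, ξ_g` (for instance products of `π`, `log 2`, `ζ(3)`, …): for `n`-tuples of points of height at most `T` of number
fields of degree at most `m`, the numbers `e^(lam_l x_j)`, `f_i(x_j)` satisfy a relation of bounded degree with
coefficients in the span of the `ξ_i` of height at most `T ^ A`, even an approximate one, only for a proportion of about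
`T ^ ε / N` of the tuples, `N` being the number of points.

Proof: a relation between the functions `e^(lam_l z)` over functions of moderate growth is impossible by the theorem of
Phragmén and Lindelöf (`Pool.Agent.Y627.EP.indep`), and the general counting theorem of helper124
(`Pool.Agent.Y124.excNF`) applies.
-/

set_option autoImplicit false

open NumberField

namespace Pool.Agent.Results.MP_2cf66e_nt.ExponentialsOverPeriods

/-- The functions `f_1, …, f_k` are analytic on the connected open set `U`, which contains a sector `|z| > R`,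
`|arg z| < π/2 + δ`, in which `|f_i(z)| ≤ |z|^N`, and they are algebraically independent over `ℂ(z)`. -/
structure ModerateGrowth {k : ℕ} (U : Set ℂ) (f : Fin k → ℂ → ℂ) : Prop where
  isOpen : IsOpen U
  isPreconnected : IsPreconnected U
  analytic : ∀ i, AnalyticOnNhd ℂ (f i) U
  growth : ∃ (R δ : ℝ) (N : ℕ), 0 < δ ∧ ∀ z : ℂ, R < ‖z‖ → |z.arg| < Real.pi / 2 + δ →
    z ∈ U ∧ ∀ i, ‖f i z‖ ≤ ‖z‖ ^ N
  independent : ∀ P : MvPolynomial (Option (Fin k)) ℂ,
    (∀ z ∈ U, MvPolynomial.eval (fun o => o.elim z fun i => f i z) P = 0) → P = 0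

/-- The numbers `exp(lam_l x_j)`, index `(j, inl l)`, and `f_i(x_j)`, index `(j, inr i)`. -/
noncomputable def values {n k r : ℕ} (lam : Fin r → ℝ) (f : Fin k → ℂ → ℂ) (x : Fin n → ℂ)
    (z : Fin n × (Fin r ⊕ Fin k)) : ℂ :=
  match z.2 with
  | Sum.inl l => Complex.exp (lam l * x z.1)
  | Sum.inr i => f i (x z.1)

/-- The elements of the number field `F` with image in `L` which are quotients of two integers of `F` all of whose
conjugates have absolute value at most `T`. -/
def Points (F : Type) [Field F] [NumberField F] (ι : F →+* ℂ) (L : Set ℂ) (T : ℝ) : Set F :=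
  {x | ι x ∈ L ∧ ∃ a b : 𝓞 F, b ≠ 0 ∧ (∀ φ : F →+* ℂ, ‖φ a‖ ≤ T ∧ ‖φ b‖ ≤ T) ∧ x = a / b}

/-- The `n`-tuples `x` of points of `F` for which there is a polynomial `P` of degree at most `d` in each of `n (r + k)`
variables, with coefficients of the form `∑ ξ_i ι(c_i)`, where the `c_i` are integers of `F` all of whose conjugates have
absolute value at most `T ^ A`, such that the value of `P` at the numbers `values` is at most `T ^ (-B)` times the
absolute value of some nonzero coefficient of `P`. -/
def Exceptional (n : ℕ) {k r : ℕ} (lam : Fin r → ℝ) (f : Fin k → ℂ → ℂ) (d : ℕ) {g : ℕ} (F : Type) [Field F]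
    [NumberField F] (ι : F →+* ℂ) (ξ : Fin g → ℂ) (L : Set ℂ) (A B T : ℝ) : Set (Fin n → F) :=
  {x | (∀ j, x j ∈ Points F ι L T) ∧ ∃ P : MvPolynomial (Fin n × (Fin r ⊕ Fin k)) ℂ, (∀ z, P.degreeOf z ≤ d) ∧
    (∀ s, ∃ c : Fin g → 𝓞 F, (∀ i (φ : F →+* ℂ), ‖φ (c i)‖ ≤ T ^ A) ∧ P.coeff s = ∑ i, ξ i * ι (c i)) ∧
    ∃ s₀, P.coeff s₀ ≠ 0 ∧ ‖MvPolynomial.aeval (values lam f fun j => ι (x j)) P‖ ≤ T ^ (-B) * ‖P.coeff s₀‖}

/-- Let `f_1, …, f_k` be as in `ModerateGrowth`, `lam_1, …, lam_r` real numbers, linearly independent over the rationals,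
and `L` a compact subset of `U`. For all `m`, `n`, `g`, `d`, `A` and `ε > 0` there are `B`, `C`, `T₀` such that for every
number field `F` of degree at most `m`, every embedding of `F` in `ℂ`, all complex numbers `ξ_1, …, ξ_g` and all `T ≥ T₀`
the number of exceptional `n`-tuples is at most `C T^ε N^(n - 1)`, where `N` is the number of points. -/
theorem result {k r : ℕ} (U : Set ℂ) (f : Fin k → ℂ → ℂ) (hf : ModerateGrowth U f) (lam : Fin r → ℝ)
    (hlam : ∀ c : Fin r → ℤ, ∑ l, (c l : ℝ) * lam l = 0 → c = 0) (L : Set ℂ) (hL : IsCompact L) (hLU : L ⊆ U)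
    (m n g d : ℕ) (A ε : ℝ) (hε : 0 < ε) :
    ∃ B C T₀ : ℝ, ∀ (F : Type) [Field F] [NumberField F], Module.finrank ℚ F ≤ m → ∀ (ι : F →+* ℂ) (ξ : Fin g → ℂ)
      (T : ℝ), T₀ ≤ T → (Exceptional n lam f d F ι ξ L A B T).Finite ∧
        ((Exceptional n lam f d F ι ξ L A B T).ncard : ℝ) ≤ C * T ^ ε * ((Points F ι L T).ncard : ℝ) ^ (n - 1) := by
  classical
  obtain ⟨R, δ, N, hδ, hS⟩ := hf.growth
  let v : Fin r ⊕ Fin k → ℂ → ℂ := Sum.elim (fun l : Fin r => fun z => Complex.exp (lam l * z)) f
  have han : ∀ i, ∀ t ∈ L, AnalyticAt ℂ (v i) t := by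
    intro i t ht
    rcases i with l | i
    · exact (analyticAt_const.mul analyticAt_id).cexp
    · exact hf.analytic i t (hLU ht)
  have hind : ∀ t ∈ L, Y124.LocInd (𝕜 := ℂ) v t := by
    intro t ht
    exact Y627.EP.indep U hf.isPreconnected f hf.analytic hδ (fun z hz => (hS z hz.1 hz.2).1)
      (fun i z hz => (hS z hz.1 hz.2).2 i) hf.independent lam hlam t (hLU ht)
  obtain ⟨B, C, T₀, hC, hT₀, H⟩ := Y124.excNF (h := Fin g) m n d (fun t i => v i t) L
    (fun g => Y124.oneV_of g v L hL han hind) A ε hε
  refine ⟨B, C, T₀, fun F _ _ hF ι ξ T hT => ?_⟩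
  have hT0 : 0 ≤ T := by linarith
  have hP : Points F ι L T = {x : F | Y120.HtLe F T x ∧ ι x ∈ L} := by
    ext x
    constructor
    · rintro ⟨h1, a, b, hb, hab, hx⟩
      exact ⟨⟨a, b, hb, Y120.house_le F hT0 fun φ => (hab φ).1, Y120.house_le F hT0 fun φ => (hab φ).2, hx⟩, h1⟩
    · rintro ⟨⟨a, b, hb, ha, hb', hx⟩, h1⟩
      exact ⟨h1, a, b, hb, fun φ => ⟨(Y120.house_ge F _ φ).trans ha, (Y120.house_ge F _ φ).trans hb'⟩, hx⟩
  have hsub : Exceptional n lam f d F ι ξ L A B T ⊆
      Y124.ExcNF n d F ι ξ (fun t (i : Fin r ⊕ Fin k) => v i t) L A B T := by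
    rintro x ⟨hx, P, hPd, hPc, s₀, hs₀, hs⟩
    refine ⟨fun j => ?_, P, hPd, hPc, s₀, hs₀, ?_⟩
    · have h1 := hx j
      rw [hP] at h1
      exact h1
    · have h1 : (fun z : Fin n × (Fin r ⊕ Fin k) => v z.2 (ι (x z.1))) = values lam f fun j => ι (x j) := by
        funext ⟨j, i⟩
        rcases i with _ | i
        · rfl
        · rfl
      rw [h1]
      exact hs
  obtain ⟨h1, h2⟩ := H F hF ι ξ T hT
  refine ⟨h1.subset hsub, ?_⟩
  rw [hP]
  exact le_trans (by exact_mod_cast Set.ncard_le_ncard hsub h1) h2

end Pool.Agent.Results.MP_2cf66e_nt.ExponentialsOverPeriods
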